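import Pool.Agent.Helper46.UC.Defs

/-!
# MP_57a173_lc, part C, packet EMB
-/

set_option linter.unusedSectionVars false

noncomputable section

namespace UL.UC.PkEMB

open UL

/-- Put the bit `s[l]` at the place `a l`, zeros at the other places. -/
def place (a : ℕ → ℕ) (s : List Bool) : List Bool :=
  (List.range (a s.length)).map (fun p => decide (∃ l < s.length, a l = p ∧ s[l]? = some true))

theorem place_length (a : ℕ → ℕ) (s : List Bool) : (place a s).length = a s.length := by
  simp [place]

theorem place_get (a : ℕ → ℕ) (s : List Bool) (p : ℕ) (h : p < (place a s).length) :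
    (place a s)[p] = decide (∃ l < s.length, a l = p ∧ s[l]? = some true) := by
  simp [place]

theorem place_snoc {a : ℕ → ℕ} (ha : StrictMono a) (s : List Bool) (b : Bool) :
    place a (s ++ [b]) = place a s ++ b :: zs (a (s.length + 1) - a s.length - 1) := by
  have hlt : a s.length < a (s.length + 1) := ha (Nat.lt_succ_self _)
  have hl : (place a (s ++ [b])).length =
      (place a s ++ b :: zs (a (s.length + 1) - a s.length - 1)).length := by
    rw [place_length, List.length_append, List.length_append, place_length]
    simp only [List.length_cons, List.length_nil, Nat.zero_add, List.length_replicate]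
    omega
  apply List.ext_getElem hl
  intro p h1 h2
  rw [place_get]
  rcases lt_trichotomy p (a s.length) with h | h | h
  · rw [List.getElem_append_left (by rw [place_length]; exact h), place_get]
    apply decide_eq_decide.2
    constructor
    · rintro ⟨l, hl1, hl2, hl3⟩
      have hls : l < s.length := by
        by_contra hc
        have : s.length ≤ l := not_lt.1 hc
        have := ha.monotone this
        omega
      refine ⟨l, hls, hl2, ?_⟩
      rwa [List.getElem?_append_left hls] at hl3
    · rintro ⟨l, hl1, hl2, hl3⟩
      refine ⟨l, by simp; omega, hl2, ?_⟩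
      rw [List.getElem?_append_left hl1]
      exact hl3
  · subst h
    rw [List.getElem_append_right (by rw [place_length])]
    have e : ∀ (k : ℕ) (hk : k < (b :: zs (a (s.length + 1) - a s.length - 1)).length), k = 0 →
        (b :: zs (a (s.length + 1) - a s.length - 1))[k] = b := by
      intro k hk h0
      subst h0
      rfl
    rw [e _ _ (by rw [place_length]; omega)]
    have h3 : (∃ l < (s ++ [b]).length, a l = a s.length ∧ (s ++ [b])[l]? = some true) ↔
        b = true := by
      constructor
      · rintro ⟨l, -, hl2, hl3⟩
        have := ha.injective hl2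
        subst this
        simpa using hl3
      · intro hb
        exact ⟨s.length, by simp, rfl, by simp [hb]⟩
    by_cases hb : b = true
    · rw [hb]
      rw [hb] at h3
      exact decide_eq_true (h3.2 rfl)
    · have hb' : b = false := by simpa using hb
      rw [hb'] at h3 ⊢
      rw [decide_eq_false_iff_not]
      intro hc
      exact absurd (h3.1 hc) (by simp)
  · rw [List.getElem_append_right (by rw [place_length]; omega)]
    have e : ∀ (k : ℕ) (hk : k < (b :: zs (a (s.length + 1) - a s.length - 1)).length), k ≠ 0 →
        (b :: zs (a (s.length + 1) - a s.length - 1))[k] = false := by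
      intro k hk h0
      obtain ⟨k', rfl⟩ := Nat.exists_eq_succ_of_ne_zero h0
      simp
    rw [e _ _ (by rw [place_length]; omega)]
    rw [decide_eq_false_iff_not]
    rintro ⟨l, hl1, hl2, -⟩
    rw [place_length] at h1
    simp only [List.length_append, List.length_cons, List.length_nil, Nat.zero_add] at h1 hl1
    have h4 : l ≤ s.length := by omega
    have := ha.monotone h4
    omega

theorem place_isL {a : ℕ → ℕ} (ha : StrictMono a) : IsL (place a) := fun s b =>
  ⟨_, place_snoc ha s b⟩

theorem place_congr {a a' : ℕ → ℕ} {s : List Bool} (h : ∀ l, l ≤ s.length → a l = a' l) :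
    place a s = place a' s := by
  unfold place
  rw [h s.length le_rfl]
  apply List.map_congr_left
  intro p _
  apply decide_eq_decide.2
  constructor
  · rintro ⟨l, h1, h2, h3⟩
    exact ⟨l, h1, by rw [← h l h1.le]; exact h2, h3⟩
  · rintro ⟨l, h1, h2, h3⟩
    exact ⟨l, h1, by rw [h l h1.le]; exact h2, h3⟩

variable {I : Type} [LinearOrder I]

theorem lc_res {D : Set I} {Z : Pt I → ℕ → Bool} (h : ∀ i, LC D (fun z => Z z i)) (n : ℕ) :
    LC D (fun z => res (Z z) n) := by
  induction n with
  | zero =>
    have e : (fun z : Pt I => res (Z z) 0) = fun _ => [] := by funext z; simp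
    rw [e]
    exact LC.const _
  | succ n ih =>
    have e : (fun z : Pt I => res (Z z) (n + 1)) = fun z => res (Z z) n ++ [Z z n] := by
      funext z; rw [res_succ]
    rw [e]
    exact ih.map₂ (h n) (fun l x => l ++ [x])

theorem lc_list {D : Set I} {a : Pt I → ℕ → ℕ} (h : ∀ i, LC D (fun z => a z i)) (n : ℕ) :
    LC D (fun z => (List.range n).map (a z)) := by
  induction n with
  | zero =>
    have e : (fun z : Pt I => (List.range 0).map (a z)) = fun _ => [] := by funext z; simp
    rw [e]
    exact LC.const _
  | succ n ih =>
    have e : (fun z : Pt I => (List.range (n + 1)).map (a z)) =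
        fun z => (List.range n).map (a z) ++ [a z n] := by
      funext z; simp [List.range_succ]
    rw [e]
    exact ih.map₂ (h n) (fun l x => l ++ [x])

theorem lc_place {D : Set I} {a : Pt I → ℕ → ℕ} (h : ∀ i, LC D (fun z => a z i))
    (s : List Bool) : LC D (fun z => place (a z) s) := by
  have e : (fun z : Pt I => place (a z) s) =
      fun z => (fun l : List ℕ => place (fun i => l.getD i 0) s)
        ((List.range (s.length + 1)).map (a z)) := by
    funext z
    apply place_congr
    intro l hl
    simp [List.getD_eq_getElem?_getD, List.getElem?_range (show l < s.length + 1 by omega)]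
  rw [e]
  exact (lc_list h (s.length + 1)).map (fun l : List ℕ => place (fun i => l.getD i 0) s)

theorem emb : P_EMB := by
  classical
  intro I _ D A nu Z b hD hA hAD hZ hb hmono
  let a : I → Pt I → ℕ → ℕ := fun ξ z l => b (l + nu ξ) (nu ξ) (res (Z z) (l + nu ξ)) z
  have ha : ∀ ξ z, StrictMono (a ξ z) := by
    intro ξ z l l' hl
    exact hmono z (l + nu ξ) (l' + nu ξ) (nu ξ) _ _ (by omega) (by omega) (res_length _ _)
      (res_length _ _)
  have halc : ∀ ξ l, LC D (fun z => a ξ z l) := by
    intro ξ l
    exact LC.bind (f := fun z => res (Z z) (l + nu ξ)) (lc_res hZ (l + nu ξ))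
      (g := fun σ z => b (l + nu ξ) (nu ξ) σ z) (fun σ => hb (l + nu ξ) (nu ξ) σ)
  obtain ⟨E, hE⟩ := exists_rep (I := I)
    (L := fun ξ z s => if ξ ∈ A then place (a ξ z) s else s)
    (by
      intro ξ z
      by_cases hξ : ξ ∈ A
      · simp only [hξ, if_true]; exact place_isL (ha ξ z)
      · simp only [hξ, if_false]; exact IsL.id)
    (by
      intro ξ s
      by_cases hξ : ξ ∈ A
      · simp only [hξ, if_true]
        refine (lc_place (halc ξ) s).mono ?_
        intro η hη
        by_contra hc
        exact hAD hξ (hD (not_lt.1 hc) hη)
      · simp only [hξ, if_false]; exact LC.const _)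
    ⟨A, hA, fun ξ hξ z s => by simp only [hξ, if_false]⟩
  refine ⟨E, ⟨_, hE⟩, ?_, ?_⟩
  · intro z ξ hξ
    apply Y.ext
    intro i
    have h1 := hE.pre z ξ (i + 1)
    simp only [hξ, if_false] at h1
    have h2 := h1 i (by simp)
    rw [res_get] at h2
    exact h2.symm
  · intro z ξ hξ p
    have h1 := hE.pre z ξ (p + 1)
    simp only [hξ, if_true] at h1
    have hlen : p < (place (a ξ z) (res (z ξ) (p + 1))).length := by
      rw [place_length, res_length]
      have := (ha ξ z).le_apply (x := p + 1)
      omega
    have h2 := h1 p hlen
    rw [place_get] at h2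
    rw [← h2, decide_eq_true_iff]
    constructor
    · rintro ⟨l, hl1, hl2, hl3⟩
      refine ⟨l, hl2.symm, ?_⟩
      rw [List.getElem?_eq_getElem hl1, res_get] at hl3
      exact Option.some.inj hl3
    · rintro ⟨l, hl1, hl2⟩
      have hl : l < (res (z ξ) (p + 1)).length := by
        rw [res_length]
        have h3 := (ha ξ z).le_apply (x := l)
        have h4 : p = a ξ z l := hl1
        omega
      refine ⟨l, hl, hl1.symm, ?_⟩
      rw [List.getElem?_eq_getElem hl, res_get]
      exact congrArg some hl2

end UL.UC.PkEMB
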